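import Pool.Agent.W2helper90.RT.Stm
import Pool.Agent.N303.SH.C
import Pool.Agent.Helper717.LT.P_pd_basic

/-!
# Project RT (helper90), pieces BES and PAR: Bessel's inequality for the components
-/

set_option autoImplicit false

open MeasureTheory Set Filter Topology Matrix

namespace Pool.Agent.W2helper90.RT

noncomputable section

open LTd (pd pp cc JJ bco)
open Pool.Agent.N537.RS (hdim Hpoly)
open Pool.Agent.N303.SH (ip ip_comm ip_add ip_smul ip_sum ip_sub int_c int_mul)

/-- Bessel's inequality for a family of orthonormal harmonics -/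
lemma bessel {k : ℕ} {g : ℕ → ℕ} {e : ∀ l, Fin (g l) → C(S k, ℝ)} (h : Orth k g e)
    {f : S k → ℝ} (hf : Continuous f) (L : ℕ) :
    ∑ l ∈ Finset.range L, ∑ j, (∫ w, e l j w * f w ∂(sm k)) ^ 2 ≤ ∫ w, f w ^ 2 ∂(sm k) := by
  classical
  set F : C(S k, ℝ) := ⟨f, hf⟩ with hF
  set s : Finset (Σ l, Fin (g l)) := (Finset.range L).sigma fun _ => Finset.univ with hs
  set c : (Σ l, Fin (g l)) → ℝ := fun p => ip (e p.1 p.2) F with hc
  have horth : ∀ p q : Σ l, Fin (g l), ip (e p.1 p.2) (e q.1 q.2) = if p = q then 1 else 0 := by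
    rintro ⟨l, j⟩ ⟨l', j'⟩
    by_cases hl : l = l'
    · subst hl
      have h1 : ip (e l j) (e l j') = if j = j' then 1 else 0 := h.one l j j'
      simp only [h1]
      congr 1
      simp
    · have h1 : ip (e l j) (e l' j') = 0 := h.ne l l' j j' hl
      rw [if_neg (by rintro h2; exact hl (congrArg Sigma.fst h2))]
      exact h1
  have hsum : ∑ l ∈ Finset.range L, ∑ j, (∫ w, e l j w * f w ∂(sm k)) ^ 2 =
      ∑ p ∈ s, c p ^ 2 := by
    rw [hs, Finset.sum_sigma]
    rfl
  set G : C(S k, ℝ) := ∑ p ∈ s, c p • e p.1 p.2 with hG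
  have h1 : ∀ H : C(S k, ℝ), ip H G = ∑ p ∈ s, c p * ip H (e p.1 p.2) := by
    intro H
    rw [hG, ip_sum]
    exact Finset.sum_congr rfl fun p _ => ip_smul _ _ _
  have h2 : ip F G = ∑ p ∈ s, c p ^ 2 := by
    rw [h1]
    refine Finset.sum_congr rfl fun p _ => ?_
    rw [ip_comm, pow_two]
  have h3 : ip G G = ∑ p ∈ s, c p ^ 2 := by
    rw [h1]
    refine Finset.sum_congr rfl fun p hp => ?_
    rw [ip_comm, h1]
    have : ∑ q ∈ s, c q * ip (e p.1 p.2) (e q.1 q.2) = c p := by
      simp only [horth, mul_ite, mul_one, mul_zero]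
      rw [Finset.sum_ite_eq, if_pos hp]
    rw [this, pow_two]
  have h4 : 0 ≤ ip (F - G) (F - G) := integral_nonneg fun w => mul_self_nonneg _
  have h5 : ip (F - G) (F - G) = ip F F - ∑ p ∈ s, c p ^ 2 := by
    rw [ip_sub, ip_comm (F - G) F, ip_comm (F - G) G, ip_sub, ip_sub, h2, ip_comm G F, h2, h3]
    ring
  have h6 : ip F F = ∫ w, f w ^ 2 ∂(sm k) := by
    unfold ip
    congr 1
    funext w
    rw [pow_two]
    rfl
  rw [hsum, ← h6]
  linarith

section reg

variable {k m : ℕ} {u : Z k m → ℝ}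

lemma c_arg (x : X m) : ContDiff ℝ 1 (fun w : E k => ((Real.exp (x 0) • w, tl x) : Z k m)) := by
  fun_prop

lemma cd_UU (hu : Good u) (x : X m) : ContDiff ℝ 1 (UU u x) := by
  unfold UU
  exact contDiff_const.mul (hu.smooth.comp (c_arg x))

lemma c_UU (hu : Good u) (x : X m) : Continuous (fun w : S k => UU u x w) :=
  (cd_UU hu x).continuous.comp continuous_subtype_val

lemma c_fd (hu : Good u) : Continuous (fderiv ℝ u) := hu.smooth.continuous_fderiv one_ne_zero

lemma c_U0 (hu : Good u) (x : X m) : Continuous (fun w : S k => U0 u x w) := by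
  unfold U0
  have h1 : Continuous (fun w : S k => ((Real.exp (x 0) • (w : E k), tl x) : Z k m)) :=
    (c_arg x).continuous.comp continuous_subtype_val
  have h2 : Continuous (fun w : S k => fderiv ℝ u (Real.exp (x 0) • (w : E k), tl x)
      ((w : E k), (0 : Fin m → ℝ))) :=
    ((c_fd hu).comp h1).clm_apply (by fun_prop)
  exact (continuous_const.mul (c_UU hu x)).add (continuous_const.mul h2)

lemma c_Uj (hu : Good u) (j : Fin m) (x : X m) : Continuous (fun w : S k => Uj u j x w) := by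
  unfold Uj
  have h1 : Continuous (fun w : S k => ((Real.exp (x 0) • (w : E k), tl x) : Z k m)) :=
    (c_arg x).continuous.comp continuous_subtype_val
  have h2 : Continuous (fun w : S k => fderiv ℝ u (Real.exp (x 0) • (w : E k), tl x)
      ((0 : E k), (Pi.single j 1 : Fin m → ℝ))) :=
    ((c_fd hu).comp h1).clm_apply (by fun_prop)
  exact continuous_const.mul h2

lemma c_tang {f : E k → ℝ} (hf : ContDiff ℝ 1 f) : Continuous (fun w : S k => tang f w) := by
  unfold tang
  have h1 : Continuous (fderiv ℝ f) := hf.continuous_fderiv one_ne_zero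
  have h2 : Continuous (tang f) := by
    unfold tang
    refine (continuous_finsetSum _ fun i _ => ?_).sub ?_
    · exact (h1.clm_apply continuous_const).pow 2
    · exact (h1.clm_apply continuous_id).pow 2
  exact h2.comp continuous_subtype_val

omit u in
lemma int_S {f : S k → ℝ} (hf : Continuous f) : Integrable f (sm k) := int_c ⟨f, hf⟩

end reg

/-- the inequality at every `x` -/
lemma bes_pt (h3 : S_ANG) {k m : ℕ} (hk : 3 ≤ k) {g : ℕ → ℕ} {e : ∀ l, Fin (g l) → C(S k, ℝ)}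
    (h : Orth k g e) {u : Z k m → ℝ} (hu : Good u) (L : ℕ) (x : X m) :
    ∑ l ∈ Finset.range L, ∑ j : Fin (g l), ((∫ w : S k, e l j w * U0 u x w ∂(sm k)) ^ 2 +
      Real.exp (2 * x 0) * ∑ i : Fin m, (∫ w : S k, e l j w * Uj u i x w ∂(sm k)) ^ 2 +
      ((l : ℝ) + ((k : ℝ) - 2) / 2) ^ 2 * ph (e l j) u x ^ 2) ≤
    ∫ w : S k, (U0 u x w ^ 2 + al k ^ 2 * UU u x w ^ 2 +
      tang (UU u x) w + Real.exp (2 * x 0) * ∑ j, Uj u j x w ^ 2) ∂(sm k) := by
  have i1 : Integrable (fun w : S k => U0 u x w ^ 2) (sm k) := int_S ((c_U0 hu x).pow 2)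
  have i2 : Integrable (fun w : S k => al k ^ 2 * UU u x w ^ 2) (sm k) :=
    int_S (continuous_const.mul ((c_UU hu x).pow 2))
  have i3 : Integrable (fun w : S k => tang (UU u x) w) (sm k) := int_S (c_tang (cd_UU hu x))
  have i4 : ∀ j : Fin m, Integrable (fun w : S k => Uj u j x w ^ 2) (sm k) :=
    fun j => int_S ((c_Uj hu j x).pow 2)
  have i5 : Integrable (fun w : S k => Real.exp (2 * x 0) * ∑ j, Uj u j x w ^ 2) (sm k) :=
    (integrable_finsetSum _ fun j _ => i4 j).const_mul _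
  have e1 : ∫ w : S k, (U0 u x w ^ 2 + al k ^ 2 * UU u x w ^ 2 +
      tang (UU u x) w + Real.exp (2 * x 0) * ∑ j, Uj u j x w ^ 2) ∂(sm k) =
      (∫ w : S k, U0 u x w ^ 2 ∂(sm k)) + al k ^ 2 * (∫ w : S k, UU u x w ^ 2 ∂(sm k)) +
      (∫ w : S k, tang (UU u x) w ∂(sm k)) +
      Real.exp (2 * x 0) * ∑ j, ∫ w : S k, Uj u j x w ^ 2 ∂(sm k) := by
    have i12 : Integrable (fun w : S k => U0 u x w ^ 2 + al k ^ 2 * UU u x w ^ 2) (sm k) := i1.add i2
    have i123 : Integrable (fun w : S k => U0 u x w ^ 2 + al k ^ 2 * UU u x w ^ 2 +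
      tang (UU u x) w) (sm k) := i12.add i3
    rw [integral_add i123 i5, integral_add i12 i3, integral_add i1 i2,
      integral_const_mul, integral_const_mul, integral_finsetSum _ fun j _ => i4 j]
  rw [e1]
  have b1 := bessel h (c_U0 hu x) L
  have b2 := bessel h (c_UU hu x) L
  have b3 := h3 k hk g e h (UU u x) (cd_UU hu x) L
  have b4 : ∀ j : Fin m, _ := fun j => bessel h (c_Uj hu j x) L
  have e2 : ∑ l ∈ Finset.range L, ∑ j : Fin (g l), ((∫ w : S k, e l j w * U0 u x w ∂(sm k)) ^ 2 +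
      Real.exp (2 * x 0) * ∑ i : Fin m, (∫ w : S k, e l j w * Uj u i x w ∂(sm k)) ^ 2 +
      ((l : ℝ) + ((k : ℝ) - 2) / 2) ^ 2 * ph (e l j) u x ^ 2) =
      (∑ l ∈ Finset.range L, ∑ j : Fin (g l), (∫ w : S k, e l j w * U0 u x w ∂(sm k)) ^ 2) +
      al k ^ 2 * (∑ l ∈ Finset.range L, ∑ j : Fin (g l), (∫ w : S k, e l j w * UU u x w ∂(sm k)) ^ 2) +
      (∑ l ∈ Finset.range L, ∑ j : Fin (g l), ((l : ℝ) * (l + k - 2)) *
        (∫ w : S k, e l j w * UU u x w ∂(sm k)) ^ 2) +
      Real.exp (2 * x 0) * ∑ i : Fin m, ∑ l ∈ Finset.range L, ∑ j : Fin (g l),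
        (∫ w : S k, e l j w * Uj u i x w ∂(sm k)) ^ 2 := by
    have e3 : ∑ i : Fin m, ∑ l ∈ Finset.range L, ∑ j : Fin (g l),
        (∫ w : S k, e l j w * Uj u i x w ∂(sm k)) ^ 2 =
        ∑ l ∈ Finset.range L, ∑ j : Fin (g l), ∑ i : Fin m,
        (∫ w : S k, e l j w * Uj u i x w ∂(sm k)) ^ 2 := by
      rw [Finset.sum_comm]
      refine Finset.sum_congr rfl fun l _ => ?_
      rw [Finset.sum_comm]
    rw [e3, Finset.mul_sum, Finset.mul_sum, ← Finset.sum_add_distrib, ← Finset.sum_add_distrib,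
      ← Finset.sum_add_distrib]
    refine Finset.sum_congr rfl fun l _ => ?_
    rw [Finset.mul_sum, Finset.mul_sum, ← Finset.sum_add_distrib, ← Finset.sum_add_distrib,
      ← Finset.sum_add_distrib]
    refine Finset.sum_congr rfl fun j _ => ?_
    unfold ph al
    ring
  rw [e2]
  have hexp := Real.exp_pos (2 * x 0)
  have hal : 0 ≤ al k ^ 2 := sq_nonneg _
  have b4' := Finset.sum_le_sum fun (i : Fin m) (_ : i ∈ Finset.univ) => b4 i
  gcongr

/-- PIECE BES -/
theorem t_BES (h1 : S_ENE) (h2 : S_PH) (h3 : S_ANG) : S_BES := by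
  intro k m hk g e h u hu L
  obtain ⟨hint, heq⟩ := h1 k m hk u hu
  rw [heq]
  have hp := fun (l : ℕ) (j : Fin (g l)) => h2 k m (by omega) (e l j) u hu
  have hpd : ∀ (l : ℕ) (j : Fin (g l)) (i : Fin (m + 1)), Continuous (pd i (ph (e l j) u)) ∧
      HasCompactSupport (pd i (ph (e l j) u)) := fun l j i =>
    LTd.pd_basic (hp l j).1 (hp l j).2.1 i
  have j1 : ∀ (l : ℕ) (j : Fin (g l)), Integrable (fun x : X m =>
      pd 0 (ph (e l j) u) x * pd 0 (ph (e l j) u) x +
        Real.exp (2 * x 0) * ∑ i : Fin m, pd i.succ (ph (e l j) u) x * pd i.succ (ph (e l j) u) x) := by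
    intro l j
    have c1 : Integrable (fun x : X m => pd 0 (ph (e l j) u) x * pd 0 (ph (e l j) u) x) :=
      ((hpd l j 0).1.mul (hpd l j 0).1).integrable_of_hasCompactSupport
        ((hpd l j 0).2.mul_left)
    have c2 : ∀ i : Fin m, Integrable (fun x : X m => Real.exp (2 * x 0) *
        (pd i.succ (ph (e l j) u) x * pd i.succ (ph (e l j) u) x)) := by
      intro i
      have c3 := (hpd l j i.succ).1
      have c4 : Continuous (fun x : X m => Real.exp (2 * x 0)) := by fun_prop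
      exact (c4.mul (c3.mul c3)).integrable_of_hasCompactSupport
        (((hpd l j i.succ).2.mul_left).mul_left)
    refine (c1.add (integrable_finsetSum Finset.univ fun i _ => c2 i)).congr
      (ae_of_all _ fun x => ?_)
    simp only [Pi.add_apply]
    rw [Finset.mul_sum]
  have j2 : ∀ (l : ℕ) (j : Fin (g l)), Integrable (fun x : X m =>
      ((l : ℝ) + ((k : ℝ) - 2) / 2) ^ 2 * ph (e l j) u x ^ 2) := by
    intro l j
    have c1 := (hp l j).1.continuous
    have c2 := (hp l j).2.1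
    refine Integrable.const_mul ?_ _
    have c3 : Integrable (fun x : X m => ph (e l j) u x * ph (e l j) u x) :=
      (c1.mul c1).integrable_of_hasCompactSupport c2.mul_left
    refine c3.congr (ae_of_all _ fun x => ?_)
    simp only
    rw [pow_two]
  have j3 : ∀ (l : ℕ) (j : Fin (g l)), Integrable (fun x : X m =>
      (pd 0 (ph (e l j) u) x * pd 0 (ph (e l j) u) x +
        Real.exp (2 * x 0) * ∑ i : Fin m, pd i.succ (ph (e l j) u) x * pd i.succ (ph (e l j) u) x) +
        ((l : ℝ) + ((k : ℝ) - 2) / 2) ^ 2 * ph (e l j) u x ^ 2) := fun l j => (j1 l j).add (j2 l j)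
  have e1 : ∑ l ∈ Finset.range L, ∑ j, (kin (ph (e l j) u) (ph (e l j) u) +
      ((l : ℝ) + ((k : ℝ) - 2) / 2) ^ 2 * ∫ x, ph (e l j) u x ^ 2) =
      ∫ x : X m, ∑ l ∈ Finset.range L, ∑ j : Fin (g l),
        ((pd 0 (ph (e l j) u) x * pd 0 (ph (e l j) u) x +
        Real.exp (2 * x 0) * ∑ i : Fin m, pd i.succ (ph (e l j) u) x * pd i.succ (ph (e l j) u) x) +
        ((l : ℝ) + ((k : ℝ) - 2) / 2) ^ 2 * ph (e l j) u x ^ 2) := by
    rw [integral_finsetSum _ fun l _ => integrable_finsetSum _ fun j _ => j3 l j]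
    refine Finset.sum_congr rfl fun l _ => ?_
    rw [integral_finsetSum _ fun j _ => j3 l j]
    refine Finset.sum_congr rfl fun j _ => ?_
    rw [integral_add (j1 l j) (j2 l j), integral_const_mul]
    rfl
  rw [e1]
  refine integral_mono (integrable_finsetSum _ fun l _ => integrable_finsetSum _ fun j _ =>
    j3 l j) hint fun x => ?_
  refine le_trans (le_of_eq ?_) (bes_pt h3 hk h hu L x)
  refine Finset.sum_congr rfl fun l _ => Finset.sum_congr rfl fun j _ => ?_
  have q1 : ∑ i : Fin m, pd i.succ (ph (e l j) u) x * pd i.succ (ph (e l j) u) x =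
      ∑ i : Fin m, (∫ w : S k, e l j w * Uj u i x w ∂(sm k)) ^ 2 :=
    Finset.sum_congr rfl fun i _ => by rw [(hp l j).2.2.2 i x, pow_two]
  rw [(hp l j).2.2.1 x, q1, ← pow_two]

end

end Pool.Agent.W2helper90.RT
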