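import Pool.Agent.W2helper73.RT.BES

/-!
# Project RT (helper90), piece PAR: the potential energy of the components
-/

set_option autoImplicit false

open MeasureTheory Set Filter Topology Matrix

namespace Pool.Agent.W2helper90.RT

noncomputable section

open LTd (pd pp cc JJ bco)
open Pool.Agent.N537.RS (hdim Hpoly)
open Pool.Agent.N303.SH (ip ip_comm ip_add ip_smul ip_sum ip_sub int_c int_mul)

section good

variable {k m : ℕ}

lemma good_zero : Good (fun _ : Z k m => (0 : ℝ)) :=
  ⟨contDiff_const, HasCompactSupport.zero, 1, one_pos, fun _ _ => rfl⟩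

lemma good_add {u v : Z k m → ℝ} (hu : Good u) (hv : Good v) : Good (fun z => u z + v z) := by
  obtain ⟨a, ha, ha'⟩ := hu.away
  obtain ⟨b, hb, hb'⟩ := hv.away
  refine ⟨hu.smooth.add hv.smooth, hu.supp.add hv.supp, min a b, lt_min ha hb, fun z hz => ?_⟩
  rw [ha' z (hz.trans_le (min_le_left _ _)), hb' z (hz.trans_le (min_le_right _ _)), add_zero]

lemma good_smul {u : Z k m → ℝ} (hu : Good u) (c : ℝ) : Good (fun z => c * u z) := by
  obtain ⟨a, ha, ha'⟩ := hu.away
  refine ⟨contDiff_const.mul hu.smooth, hu.supp.mul_left, a, ha, fun z hz => ?_⟩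
  rw [ha' z hz, mul_zero]

lemma good_sum {ι : Type} (s : Finset ι) {u : ι → Z k m → ℝ} (hu : ∀ a, Good (u a)) (c : ι → ℝ) :
    Good (fun z => ∑ a ∈ s, c a * u a z) := by
  classical
  induction s using Finset.induction_on with
  | empty => simpa using good_zero
  | insert a s ha ih =>
    have := good_add (good_smul (hu a) (c a)) ih
    simpa only [Finset.sum_insert ha] using this

end good

/-- one component -/
lemma one_comp {k : ℕ} {g : ℕ → ℕ} {e : ∀ l, Fin (g l) → C(S k, ℝ)} (h : Orth k g e)
    {f : S k → ℝ} (hf : Continuous f) (l : ℕ) (j : Fin (g l)) :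
    (∫ w, e l j w * f w ∂(sm k)) ^ 2 ≤ ∫ w, f w ^ 2 ∂(sm k) := by
  refine le_trans ?_ (bessel h hf (l + 1))
  have h1 : (∫ w, e l j w * f w ∂(sm k)) ^ 2 ≤ ∑ j, (∫ w, e l j w * f w ∂(sm k)) ^ 2 :=
    Finset.single_le_sum (f := fun j => (∫ w, e l j w * f w ∂(sm k)) ^ 2)
      (fun _ _ => sq_nonneg _) (Finset.mem_univ j)
  refine h1.trans ?_
  exact Finset.single_le_sum (f := fun l => ∑ j, (∫ w, e l j w * f w ∂(sm k)) ^ 2)
    (fun _ _ => Finset.sum_nonneg fun _ _ => sq_nonneg _) (Finset.mem_range.2 (Nat.lt_succ_self l))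

lemma UU_sum {k m N : ℕ} (u : Fin N → Z k m → ℝ) (c : Fin N → ℝ) (x : X m) (w : E k) :
    UU (fun z => ∑ a, c a * u a z) x w = ∑ a, c a * UU (u a) x w := by
  unfold UU
  rw [Finset.mul_sum]
  exact Finset.sum_congr rfl fun a _ => by ring

lemma ph_sum {k m N : ℕ} (e : C(S k, ℝ)) (u : Fin N → Z k m → ℝ) (hu : ∀ a, Good (u a))
    (c : Fin N → ℝ) (x : X m) :
    ph e (fun z => ∑ a, c a * u a z) x = ∑ a, c a * ph e (u a) x := by
  unfold ph
  have h1 : ∀ w : S k, e w * UU (fun z => ∑ a, c a * u a z) x w =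
      ∑ a, c a * (e w * UU (u a) x w) := by
    intro w
    rw [UU_sum, Finset.mul_sum]
    exact Finset.sum_congr rfl fun a _ => by ring
  simp only [h1]
  rw [integral_finsetSum _ fun a _ => ?_]
  · exact Finset.sum_congr rfl fun a _ => integral_const_mul _ _
  · exact (int_S (e.continuous.mul (c_UU (hu a) x))).const_mul _

/-- PIECE PAR -/
theorem t_PAR (h1 : S_LEN) (h2 : S_PH) : S_PAR := by
  intro k m hk g e h hcomp
  refine ⟨?_, ?_⟩
  · intro u hu V hV hVb
    obtain ⟨C, hC⟩ := hVb
    obtain ⟨-, heq⟩ := h1 k m hk u hu V hV ⟨C, hC⟩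
    obtain ⟨hint', -⟩ := h1 k m hk u hu (fun x => |V x|) hV.abs
      ⟨C, fun x => by rw [abs_abs]; exact hC x⟩
    rw [heq]
    have hp := fun (l : ℕ) (j : Fin (g l)) => h2 k m (by omega) (e l j) u hu
    have j1 : ∀ (l : ℕ) (j : Fin (g l)), Integrable (fun x : X m =>
        Real.exp (2 * x 0) * V x * ph (e l j) u x ^ 2) := by
      intro l j
      have c1 := (hp l j).1.continuous
      have c2 := (hp l j).2.1
      have c4 : Continuous (fun x : X m => Real.exp (2 * x 0)) := by fun_prop
      have c3 : Integrable (fun x : X m => Real.exp (2 * x 0) *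
          (ph (e l j) u x * ph (e l j) u x)) :=
        (c4.mul (c1.mul c1)).integrable_of_hasCompactSupport (c2.mul_left.mul_left)
      have c5 := c3.bdd_mul (c := C) hV.aestronglyMeasurable
        (ae_of_all _ fun x => by rw [Real.norm_eq_abs]; exact hC x)
      refine c5.congr (ae_of_all _ fun x => ?_)
      simp only
      ring
    have e1 : (fun L => ∑ l ∈ Finset.range L, ∑ j, ∫ x : X m, Real.exp (2 * x 0) * V x *
        ph (e l j) u x ^ 2) = fun L => ∫ x : X m, ∑ l ∈ Finset.range L, ∑ j : Fin (g l),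
          Real.exp (2 * x 0) * V x * ph (e l j) u x ^ 2 := by
      funext L
      rw [integral_finsetSum _ fun l _ => integrable_finsetSum _ fun j _ => j1 l j]
      refine Finset.sum_congr rfl fun l _ => ?_
      rw [integral_finsetSum _ fun j _ => j1 l j]
    rw [e1]
    have e2 : ∀ (L : ℕ) (x : X m), ∑ l ∈ Finset.range L, ∑ j : Fin (g l),
        Real.exp (2 * x 0) * V x * ph (e l j) u x ^ 2 = Real.exp (2 * x 0) * V x *
          ∑ l ∈ Finset.range L, ∑ j : Fin (g l), ph (e l j) u x ^ 2 := by
      intro L x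
      simp only [Finset.mul_sum]
    refine tendsto_integral_of_dominated_convergence
      (fun x : X m => Real.exp (2 * x 0) * |V x| * ∫ w : S k, UU u x w ^ 2 ∂(sm k)) ?_ hint' ?_ ?_
    · intro L
      exact (integrable_finsetSum _ fun l _ => integrable_finsetSum _ fun j _ =>
        j1 l j).aestronglyMeasurable
    · intro L
      refine ae_of_all _ fun x => ?_
      rw [e2, norm_mul, norm_mul, Real.norm_eq_abs, Real.norm_eq_abs, Real.norm_eq_abs,
        Real.abs_exp]
      have h4 : 0 ≤ ∑ l ∈ Finset.range L, ∑ j : Fin (g l), ph (e l j) u x ^ 2 :=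
        Finset.sum_nonneg fun _ _ => Finset.sum_nonneg fun _ _ => sq_nonneg _
      rw [abs_of_nonneg h4]
      have h5 := bessel h (c_UU hu x) L
      exact mul_le_mul_of_nonneg_left h5 (by positivity)
    · refine ae_of_all _ fun x => ?_
      simp only [e2]
      exact (hcomp ⟨fun w : S k => UU u x w, c_UU hu x⟩).const_mul _
  · intro N u hu hsub l j c
    have hU : Good (fun z => ∑ a, c a * u a z) := good_sum Finset.univ hu c
    set U : Z k m → ℝ := fun z => ∑ a, c a * u a z with hUd
    obtain ⟨hint, heq⟩ := h1 k m hk U hU (fun _ => 1) measurable_const ⟨1, fun _ => by simp⟩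
    have h3 : ∫ z : Z k m, U z ^ 2 = ∫ x : X m, Real.exp (2 * x 0) * 1 *
        ∫ w : S k, UU U x w ^ 2 ∂(sm k) := by
      rw [← heq]
      simp only [one_mul]
    refine le_trans ?_ (hsub c)
    rw [h3]
    have hp := h2 k m (by omega) (e l j) U hU
    have c1 := hp.1.continuous
    have c2 := hp.2.1
    have c4 : Continuous (fun x : X m => Real.exp (2 * x 0)) := by fun_prop
    have c3 : Integrable (fun x : X m => Real.exp (2 * x 0) *
        (ph (e l j) U x * ph (e l j) U x)) :=
      (c4.mul (c1.mul c1)).integrable_of_hasCompactSupport (c2.mul_left.mul_left)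
    have e3 : ∀ x : X m, Real.exp (2 * x 0) * (∑ a, c a * ph (e l j) (u a) x) ^ 2 =
        Real.exp (2 * x 0) * (ph (e l j) U x * ph (e l j) U x) := by
      intro x
      rw [← ph_sum (e l j) u hu c x, pow_two]
    simp only [e3]
    refine integral_mono c3 hint fun x => ?_
    simp only [mul_one]
    refine mul_le_mul_of_nonneg_left ?_ (Real.exp_pos _).le
    have := one_comp h (c_UU hU x) l j
    rw [pow_two] at this
    exact this

end

end Pool.Agent.W2helper90.RT
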